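import Pool.Agent.H207.BT.Stm5

/-!
# Project BT: transport along the orbit, general goals

Adapted from `Pool/Agent/H965/BT207/TRAN.lean`.
-/

set_option autoImplicit false

open Topology Filter Metric Set MeasureTheory Polynomial

namespace Pool.Agent.H972.BT207

open Pool.Agent.H790R3.RB Pool.Agent.H211.HY Pool.Agent.H207.BT

theorem cr_symm0 {p q : ℂ × ℂ} (h : cr p q = 0) : cr q p = 0 := by
  rw [cr_comm, h, neg_zero]

/-- reaching the goal passes to the preimage -/
theorem rch_step {d : ℕ} (hd : 2 ≤ d) {x : CV d} (hx : ND x) {p p' g : ℂ × ℂ} (hp : p ≠ 0)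
    (hp' : p' ≠ 0) (h : cr (hF x p) p' = 0) (hw : wr x p ≠ 0) (hr : Rch x g p') : Rch x g p := by
  obtain ⟨n, h1, h2⟩ := hr
  have hFp : hF x p ≠ 0 := fun h0 => hp (hx p h0)
  refine ⟨n + 1, fun j hj => ?_, ?_⟩
  · rcases j with _ | j
    · exact hw
    · rw [Function.iterate_succ_apply]
      intro h0
      have h3 := cr_iter x j hFp hp' h
      exact h1 j (by omega)
        (wr_of_par hd x (hx.iter_ne j hp') (hx.iter_ne j hFp) (cr_symm0 h3) h0)
  · rw [Function.iterate_succ_apply]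
    exact cr_trans (hx.iter_ne n hp') (cr_iter x n hFp hp' h) h2

theorem t_TRANG (h : Pool.Agent.H211.HY.S_DER) : Pool.Agent.H207.BT.S_TRANG := by
  intro d k x₀ c₀ m X c ρ' C K μ κ xx hc γ i N s w _ hs hn hN
  have hgood := hc.good i
  have hsb : s ∈ ball (0 : Fin k → ℂ) ρ' := mem_ball_zero_iff.2 hs
  have hND : ND (X s) := hc.fami.nd s hsb
  -- downward induction
  have key : ∀ n, n ≤ N → RPg x₀ X c₀ γ i (N - n) s (YY (cf x₀ X (c₀ i)) w (N - n) s) := by
    intro n
    induction n with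
    | zero =>
      intro _
      simpa using hN
    | succ n ih =>
      intro hnN
      obtain ⟨l, hl⟩ : ∃ l, l = N - (n + 1) := ⟨_, rfl⟩
      have hl1 : N - n = l + 1 := by omega
      have hlN : l < N := by omega
      have ih' := ih (by omega)
      rw [hl1] at ih'
      rw [← hl]
      obtain ⟨hn1, hn2⟩ := hn l hlN
      set y : ℂ := YY (cf x₀ X (c₀ i)) w l s with hy
      have hyb : y ∈ ball (cz x₀ (c₀ i) l) ρ' := by
        rw [mem_ball_iff_norm]
        exact hn1
      have hstep := hc.step i l s hsb y hyb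
      have hdn := hc.dfd i l s hsb y hyb
      -- the derivative does not vanish
      have hC : 1 ≤ C := hgood.C1
      have hxx := hgood.xx l
      have hdx := hgood.dx l
      have hle : ‖s‖ + ‖y - cz x₀ (c₀ i) l‖ ≤ xx i l / C := by
        refine hn2.trans ?_
        exact div_le_div_of_nonneg_left hxx.1.le (by linarith) (by linarith)
      have hds := hgood.ds l s hsb y hyb hle
      have hD : 0 < ‖deriv (cf x₀ X (c₀ i) l 0) (cz x₀ (c₀ i) l)‖ := norm_pos_iff.2 hdx.1
      have hbd : C * ‖deriv (cf x₀ X (c₀ i) l 0) (cz x₀ (c₀ i) l)‖ *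
          ((‖s‖ + ‖y - cz x₀ (c₀ i) l‖) / xx i l) ≤
          ‖deriv (cf x₀ X (c₀ i) l 0) (cz x₀ (c₀ i) l)‖ / 2 := by
        have h1 : (‖s‖ + ‖y - cz x₀ (c₀ i) l‖) / xx i l ≤ 1 / (2 * C) := by
          rw [div_le_iff₀ hxx.1]
          refine hn2.trans (le_of_eq ?_)
          ring
        have h2 : C * ‖deriv (cf x₀ X (c₀ i) l 0) (cz x₀ (c₀ i) l)‖ *
            ((‖s‖ + ‖y - cz x₀ (c₀ i) l‖) / xx i l) ≤
            C * ‖deriv (cf x₀ X (c₀ i) l 0) (cz x₀ (c₀ i) l)‖ * (1 / (2 * C)) :=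
          mul_le_mul_of_nonneg_left h1 (by positivity)
        refine h2.trans (le_of_eq ?_)
        have hC0 : C ≠ 0 := by linarith
        field_simp
      have hne : deriv (cf x₀ X (c₀ i) l s) y ≠ 0 := by
        intro h0
        rw [h0, zero_sub, norm_neg] at hds
        linarith
      have hder := (h d k (tau (qo x₀ (c₀ i) (l + 1))) (tau (qo x₀ (c₀ i) (l + 2))) y hc.hd).1
        (X s) hdn
      have hder' : deriv (cf x₀ X (c₀ i) l s) y =
          sg (tau (qo x₀ (c₀ i) (l + 1))) * sg (tau (qo x₀ (c₀ i) (l + 2))) *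
            wr (X s) (iot (tau (qo x₀ (c₀ i) (l + 1))) y) /
            ((d : ℂ) * dn (tau (qo x₀ (c₀ i) (l + 2)))
              (hF (X s) (iot (tau (qo x₀ (c₀ i) (l + 1))) y)) ^ 2) := hder.deriv
      have hwr : wr (X s) (iot (tau (qo x₀ (c₀ i) (l + 1))) y) ≠ 0 := by
        intro h0
        rw [h0, mul_zero, zero_div] at hder'
        exact hne hder'
      unfold RPg at ih' ⊢
      exact rch_step hc.hd hND (iot_ne _ _) (iot_ne _ _) hstep hwr ih'
  have h1 := key N le_rfl
  rw [Nat.sub_self] at h1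
  exact h1

end Pool.Agent.H972.BT207
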